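import Pool.Agent.Work.MP_db9399_lt.Interface
import Pool.Agent.Work.MP_db9399_nc.Base

/-!
# MP_db9399, THEOREM LT: helpful lemmas
-/

set_option autoImplicit false
set_option linter.unusedSectionVars false

namespace Pool.Agent.Work.MP_db9399_lt

open Finset Classical
open Pool.Agent.Work.MP_db9399_all (nb)
open Pool.Agent.Work.MP_db9399_nc (nn PEC Mts mem_nb mem_nn)

universe u

variable {V : Type u} [Fintype V]

theorem mem_pt {p : V → Fin 3} {i : Fin 3} {v : V} : v ∈ pt p i ↔ p v = i := by simp [pt]

theorem mem_us {F : V → Finset ℕ} {b : ℕ} {v : V} : v ∈ us F b ↔ b ∈ F v := by simp [us]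

theorem mem_wr {F : V → Finset ℕ} {B : Finset ℕ} {b : ℕ} :
    b ∈ wr F B ↔ b ∈ B ∧ Odd (univ \ us F b).card := by simp [wr]

theorem mem_od {F : V → Finset ℕ} {p : V → Fin 3} {C : Fin 3 → Finset ℕ} {i : Fin 3} {b : ℕ} :
    b ∈ od F p C i ↔ b ∈ C i ∧ Odd ((univ \ pt p i) \ us F b).card := by simp [od]

theorem mem_cc {C : Fin 3 → Finset ℕ} {b : ℕ} : b ∈ cc C ↔ ∃ i, b ∈ C i := by
  constructor
  · intro h
    simp only [cc, Finset.mem_union] at h
    rcases h with (h | h) | h
    · exact ⟨0, h⟩
    · exact ⟨1, h⟩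
    · exact ⟨2, h⟩
  · rintro ⟨i, hi⟩
    simp only [cc, Finset.mem_union]
    fin_cases i
    · exact Or.inl (Or.inl hi)
    · exact Or.inl (Or.inr hi)
    · exact Or.inr hi

theorem isS_symm {F : V → Finset ℕ} {p : V → Fin 3} {C : Fin 3 → Finset ℕ} {su sv : ℕ → V}
    {v w : V} (h : isS F p C su sv v w) : isS F p C su sv w v := by
  obtain ⟨i, b, hb, h⟩ := h
  exact ⟨i, b, hb, h.symm⟩

theorem isA_symm {h : ℕ} {e1 e2 : ℕ → V} {v w : V} (hh : isA h e1 e2 v w) :
    isA h e1 e2 w v := by
  obtain ⟨k, hk, h⟩ := hh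
  exact ⟨k, hk, h.symm⟩

/-- the support of an involution is even -/
theorem even_supp (m : V → V) (A : Finset V) (h1 : ∀ v ∈ A, m v ∈ A) (h2 : ∀ v ∈ A, m (m v) = v)
    (h3 : ∀ v ∈ A, m v ≠ v) : Even A.card := by
  have h4 : (A.card : ZMod 2) = 0 := by
    have : ∑ v ∈ A, (1 : ZMod 2) = 0 := by
      refine Finset.sum_involution (fun v _ => m v) ?_ ?_ ?_ ?_
      · intro v _; decide
      · intro v hv _; exact h3 v hv
      · intro v hv; exact h1 v hv
      · intro v hv; exact h2 v hv
    simpa using this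
  rwa [ZMod.natCast_eq_zero_iff, ← even_iff_two_dvd] at h4

/-- handshake lemma -/
theorem even_degsum (G : SimpleGraph V) : Even (∑ v, (nb G v).card) := by
  have h1 : ∑ v, (nb G v).card =
      ((univ : Finset (V × V)).filter (fun e => G.Adj e.1 e.2)).card := by
    rw [Finset.card_filter, Fintype.sum_prod_type]
    refine Finset.sum_congr rfl fun v _ => ?_
    rw [nb, Finset.card_filter]
  rw [h1]
  refine even_supp (fun e : V × V => (e.2, e.1)) _ ?_ ?_ ?_
  · intro e he
    rw [Finset.mem_filter] at he ⊢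
    exact ⟨Finset.mem_univ _, he.2.symm⟩
  · intro e _; rfl
  · intro e he h
    rw [Finset.mem_filter] at he
    have h2 : e.2 = e.1 := congrArg Prod.fst h
    exact G.loopless.irrefl e.1 (h2 ▸ he.2)

/-- handshake lemma inside a set -/
theorem even_degsum_on (G : SimpleGraph V) (A : Finset V) :
    Even (∑ v ∈ A, ((nb G v).filter (fun w => w ∈ A)).card) := by
  have h1 : ∑ v ∈ A, ((nb G v).filter (fun w => w ∈ A)).card =
      ((A ×ˢ A).filter (fun e => G.Adj e.1 e.2)).card := by
    rw [Finset.card_filter, Finset.sum_product]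
    refine Finset.sum_congr rfl fun v _ => ?_
    rw [← Finset.card_filter]
    congr 1
    ext w
    simp [mem_nb, and_comm]
  rw [h1]
  refine even_supp (fun e : V × V => (e.2, e.1)) _ ?_ ?_ ?_
  · intro e he
    rw [Finset.mem_filter, Finset.mem_product] at he ⊢
    exact ⟨⟨he.1.2, he.1.1⟩, he.2.symm⟩
  · intro e _; rfl
  · intro e he h
    rw [Finset.mem_filter] at he
    have h2 : e.2 = e.1 := congrArg Prod.fst h
    exact G.loopless.irrefl e.1 (h2 ▸ he.2)

/-- |V| = 1 + degree + number of nonneighbours -/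
theorem card_V (G : SimpleGraph V) (v : V) :
    Fintype.card V = 1 + (nb G v).card + (nn G univ v).card := by
  have h1 : (univ : Finset V) = insert v (nb G v ∪ nn G univ v) := by
    ext w
    simp only [Finset.mem_univ, Finset.mem_insert, Finset.mem_union, mem_nb, mem_nn, true_and,
      true_iff]
    by_cases h : w = v
    · exact Or.inl h
    · by_cases h' : G.Adj v w
      · exact Or.inr (Or.inl h')
      · exact Or.inr (Or.inr ⟨h, h'⟩)
  have h2 : v ∉ nb G v ∪ nn G univ v := by simp [mem_nb, mem_nn]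
  have h3 : Disjoint (nb G v) (nn G univ v) := by
    rw [Finset.disjoint_left]
    intro w hw hw'
    rw [mem_nb] at hw
    rw [mem_nn] at hw'
    exact hw'.2.2 hw
  have h4 : (univ : Finset V).card = (insert v (nb G v ∪ nn G univ v)).card :=
    congrArg Finset.card h1
  rw [Finset.card_insert_of_notMem h2, Finset.card_union_of_disjoint h3, Finset.card_univ] at h4
  omega

theorem pt_cell (p : V → Fin 3) (a : V → Bool) (i : Fin 3) :
    (pt p i).card = (cell p a i true).card + (cell p a i false).card := by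
  rw [← Finset.card_union_of_disjoint]
  · congr 1
    ext v
    simp only [mem_pt, cell, Finset.mem_union, Finset.mem_filter, Finset.mem_univ, true_and]
    cases a v <;> simp
  · rw [Finset.disjoint_left]
    intro v hv hv'
    simp only [cell, Finset.mem_filter, Finset.mem_univ, true_and] at hv hv'
    rw [hv.2] at hv'
    exact absurd hv'.2 (by decide)

theorem card_parts (p : V → Fin 3) :
    Fintype.card V = (pt p 0).card + (pt p 1).card + (pt p 2).card := by
  have h : Fintype.card V = ∑ i : Fin 3, (pt p i).card := by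
    rw [← Finset.card_univ]
    exact Finset.card_eq_sum_card_fiberwise (fun v _ => Finset.mem_univ (p v))
  rw [h, Fin.sum_univ_three]

section lth
variable {G : SimpleGraph V} {d x y h s : ℕ} {F : V → Finset ℕ} {p : V → Fin 3} {a : V → Bool}
    {C : Fin 3 → Finset ℕ}

theorem LTH.pt_le (H : LTH G d x y h s F p a C) (i : Fin 3) : (pt p i).card ≤ 2 * s := by
  have h1 := (H.cs i true).1
  have h2 := (H.cs i false).1
  rw [pt_cell p a i]; omega

theorem LTH.pt_ge (H : LTH G d x y h s F p a C) (i : Fin 3) :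
    2 * s ≤ (pt p i).card + 2 * x := by
  have h1 := (H.cs i true).2
  have h2 := (H.cs i false).2
  rw [pt_cell p a i]; omega

theorem LTH.card_le (H : LTH G d x y h s F p a C) : Fintype.card V ≤ 6 * s := by
  have h1 := H.pt_le 0
  have h2 := H.pt_le 1
  have h3 := H.pt_le 2
  have h4 := card_parts p
  omega

theorem LTH.card_ge (H : LTH G d x y h s F p a C) : 6 * s ≤ Fintype.card V + 6 * x := by
  have h1 := H.pt_ge 0
  have h2 := H.pt_ge 1
  have h3 := H.pt_ge 2
  have h4 := card_parts p
  omega

/-- `10 ^ 13 x ≤ h` -/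
theorem LTH.xh (H : LTH G d x y h s F p a C) : 10 ^ 13 * x ≤ h := by
  have h1 := H.xd
  have h2 := H.dh
  norm_num at h1 h2 ⊢
  omega

theorem LTH.h1 (H : LTH G d x y h s F p a C) : 10 ^ 13 ≤ h := by
  have h1 := H.xh
  have h2 := H.x1
  norm_num at h1 ⊢
  omega

theorem LTH.ne (H : LTH G d x y h s F p a C) : Nonempty V := by
  by_contra hne
  rw [not_nonempty_iff] at hne
  have h1 := H.card_ge
  have h2 : Fintype.card V = 0 := Fintype.card_eq_zero
  have h3 := H.Ccard 0
  have h4 := H.xh
  have h5 := H.x1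
  norm_num at h4
  omega

theorem LTH.card_d (H : LTH G d x y h s F p a C) :
    Fintype.card V ≤ d + 2 + x ∧ d + 2 ≤ Fintype.card V + x := by
  obtain ⟨v⟩ := H.ne
  have h1 := card_V G v
  have h2 := H.deg v
  have h3 := H.inn v
  have h4 := H.Fx v
  constructor <;> omega

/-- `s` is about `d / 6` -/
theorem LTH.s_bd (H : LTH G d x y h s F p a C) :
    6 * s ≤ d + 2 + 7 * x ∧ d + 2 ≤ 6 * s + x ∧ d ≤ 7 * s ∧ 5 * s ≤ d := by
  have h1 := H.card_d
  have h2 := H.card_le
  have h3 := H.card_ge
  have h4 := H.xd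
  have h5 := H.x1
  norm_num at h4
  refine ⟨by omega, by omega, by omega, by omega⟩

/-- the sum over `b` of the numbers of vertices without `b` -/
theorem LTH.sum_us (H : LTH G d x y h s F p a C) (A : Finset V) :
    ∑ b ∈ range (d + 2), (A \ us F b).card + ∑ v ∈ A, (F v).card = A.card * (d + 2) := by
  have e1 : ∀ b, (A \ us F b).card = ∑ v ∈ A, if b ∈ F v then 0 else 1 := by
    intro b
    have h1 : A \ us F b = A.filter (fun v => ¬ b ∈ F v) := by
      ext v
      simp [mem_us]
    rw [h1, Finset.card_filter]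
    refine Finset.sum_congr rfl fun v _ => ?_
    by_cases hb : b ∈ F v <;> simp [hb]
  have e2 : ∀ v, (F v).card = ∑ b ∈ range (d + 2), if b ∈ F v then 1 else 0 := by
    intro v
    rw [← Finset.sum_filter, ← Finset.card_eq_sum_ones]
    congr 1
    ext b
    simp only [Finset.mem_filter, Finset.mem_range]
    exact ⟨fun hb => ⟨H.Flt v b hb, hb⟩, fun hb => hb.2⟩
  have e3 : ∑ b ∈ range (d + 2), (A \ us F b).card =
      ∑ v ∈ A, ∑ b ∈ range (d + 2), if b ∈ F v then 0 else 1 := by
    rw [Finset.sum_comm]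
    exact Finset.sum_congr rfl fun b _ => e1 b
  rw [e3, ← Finset.sum_add_distrib]
  have e4 : ∀ v ∈ A, (∑ b ∈ range (d + 2), if b ∈ F v then 0 else 1) + (F v).card = d + 2 := by
    intro v _
    rw [e2 v, ← Finset.sum_add_distrib]
    have : ∀ b ∈ range (d + 2), ((if b ∈ F v then 0 else 1) + if b ∈ F v then 1 else 0) = 1 := by
      intro b _
      by_cases hb : b ∈ F v <;> simp [hb]
    rw [Finset.sum_congr rfl this]
    simp
  rw [Finset.sum_congr rfl e4, Finset.sum_const, smul_eq_mul]

/-- a sum is even iff the number of odd terms is even -/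
theorem even_sum_iff {ι : Type*} (S : Finset ι) (f : ι → ℕ) :
    Even (∑ b ∈ S, f b) ↔ Even (S.filter (fun b => Odd (f b))).card := by
  induction S using Finset.induction_on with
  | empty => simp
  | insert b S hb ih =>
    rw [Finset.sum_insert hb, Finset.filter_insert]
    by_cases ho : Odd (f b)
    · rw [if_pos ho, Finset.card_insert_of_notMem (by simp [hb])]
      rw [Nat.even_add, Nat.even_add_one, ih]
      have : ¬ Even (f b) := Nat.not_even_iff_odd.mpr ho
      tauto
    · rw [if_neg ho, Nat.even_add, ih]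
      have : Even (f b) := Nat.not_odd_iff_even.mp ho
      tauto

/-- `|wr|` and `|V|` have the same parity -/
theorem LTH.wr_ev (H : LTH G d x y h s F p a C) :
    Even ((wr F (range (d + 2))).card + Fintype.card V) := by
  have e1 := H.sum_us univ
  have e2 := even_degsum G
  have e3 : ∑ v, (nb G v).card + ∑ v, (F v).card = Fintype.card V * (d + 1) := by
    rw [← Finset.sum_add_distrib, Finset.sum_congr rfl fun v _ => H.deg v, Finset.sum_const,
      smul_eq_mul, Finset.card_univ]
  have e4 : ∑ b ∈ range (d + 2), (univ \ us F b).card = ∑ v, (nb G v).card + Fintype.card V := by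
    rw [Finset.card_univ] at e1
    have : Fintype.card V * (d + 2) = Fintype.card V * (d + 1) + Fintype.card V := by ring
    omega
  have e5 := even_sum_iff (range (d + 2)) (fun b => (univ \ us F b).card)
  rw [e4] at e5
  have e6 : wr F (range (d + 2)) = (range (d + 2)).filter (fun b => Odd (univ \ us F b).card) :=
    rfl
  rw [e6]
  rw [Nat.even_add] at e5 ⊢
  tauto

end lth

end Pool.Agent.Work.MP_db9399_lt
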