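import Mathlib
import Pool.Agent.Work.MP_db9399_nc.Interface

/-!
# MP_db9399, THEOREM LT: one almost complete spot with a spread precoloured boundary (owner helper94)

Definitions and the exact statement `Stmt_X` of every block. See `BLUEPRINT.md`.
-/

set_option autoImplicit false

namespace Pool.Agent.Work.MP_db9399_lt

open Finset Classical
open Pool.Agent.Work.MP_db9399_all (nb)
open Pool.Agent.Work.MP_db9399_nc (nn PEC Mts)

universe u

section defs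
variable {V : Type u} [Fintype V]

/-- the part `i` -/
noncomputable def pt (p : V → Fin 3) (i : Fin 3) : Finset V := univ.filter (fun v => p v = i)

/-- the cell `(i, l)` -/
noncomputable def cell (p : V → Fin 3) (a : V → Bool) (i : Fin 3) (l : Bool) : Finset V :=
  univ.filter (fun v => p v = i ∧ a v = l)

/-- the vertices where the colour `b` is already used -/
noncomputable def us (F : V → Finset ℕ) (b : ℕ) : Finset V := univ.filter (fun v => b ∈ F v)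

/-- the wrong colours of `B`: an odd number of vertices can get the colour -/
noncomputable def wr (F : V → Finset ℕ) (B : Finset ℕ) : Finset ℕ :=
  B.filter (fun b => Odd (univ \ us F b).card)

/-- the colours of `C i` which need an edge leaving the part `i` -/
noncomputable def od (F : V → Finset ℕ) (p : V → Fin 3) (C : Fin 3 → Finset ℕ) (i : Fin 3) :
    Finset ℕ :=
  (C i).filter (fun b => Odd ((univ \ pt p i) \ us F b).card)

/-- all colours of the three palettes -/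
def cc (C : Fin 3 → Finset ℕ) : Finset ℕ := C 0 ∪ C 1 ∪ C 2

/-- `LTH`: hypotheses of the theorem. `F v` are the colours already used at `v`, `x` bounds the
nonneighbours, the `F v` and the differences of the sizes of the six cells, `y` bounds the number
of vertices where a colour is already used. -/
structure LTH (G : SimpleGraph V) (d x y h s : ℕ) (F : V → Finset ℕ) (p : V → Fin 3)
    (a : V → Bool) (C : Fin 3 → Finset ℕ) : Prop where
  x1 : 1 ≤ x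
  xd : 10 ^ 26 * x ≤ d
  yh : 100 * y ≤ h
  hd : 10 ^ 12 * h ≤ d
  dh : d ≤ 10 ^ 13 * h
  deg : ∀ v, (nb G v).card + (F v).card = d + 1
  inn : ∀ v, (nn G univ v).card ≤ x
  Fx : ∀ v, (F v).card ≤ x
  Flt : ∀ v, ∀ b ∈ F v, b < d + 2
  load : ∀ b, (us F b).card ≤ y
  par : (wr F (range (d + 2))).card ≤ Fintype.card V
  cs : ∀ i l, (cell p a i l).card ≤ s ∧ s ≤ (cell p a i l).card + x
  Clt : ∀ i, ∀ b ∈ C i, b < d + 2
  Cdis : ∀ i j, i ≠ j → Disjoint (C i) (C j)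
  Ccard : ∀ i, (C i).card + h = 2 * s
  CF : ∀ v, Disjoint (F v) (C (p v))

/-! ### perfect matchings of dense regular graphs -/

/-- two sides of size `p`, `tw` exchanges the sides, `l` labels every side -/
structure Tw (p : ℕ) (sd : V → Bool) (tw : V → V) (l : V → ℕ) : Prop where
  tt : ∀ v, tw (tw v) = v
  ts : ∀ v, sd (tw v) = !(sd v)
  tl : ∀ v, l (tw v) = l v
  lt : ∀ v, l v < p
  inj : ∀ v w, sd v = sd w → l v = l w → v = w
  sur : ∀ β, ∀ i < p, ∃ v, sd v = β ∧ l v = i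

/-- both sides have `p` elements -/
structure Bal (p : ℕ) (sd : V → Bool) : Prop where
  t : (univ.filter (fun v => sd v = true)).card = p
  f : (univ.filter (fun v => sd v = false)).card = p

/-! ### the last stage -/

/-- The graph `R` of the last stage: palette `Cl`; `st b`, `b ∈ O`, has an outer edge of colour
`b`; the vertices of `W` have missed their colour already. -/
structure FD (R : SimpleGraph V) (Cl O : Finset ℕ) (st : ℕ → V) (W : Finset V) : Prop where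
  OC : O ⊆ Cl
  inj : Set.InjOn st (O : Set ℕ)
  deg : ∀ v, (nb R v).card + (if v ∈ O.image st then 1 else 0) + 1 =
    Cl.card + (if v ∈ W then 1 else 0)
  dense : 10 ^ 10 * (Fintype.card V + 2 * W.card + 20) ≤ Fintype.card V + 10 ^ 10 * Cl.card

/-- the conclusion of the last stage -/
def Done (R : SimpleGraph V) (Cl O : Finset ℕ) (st : ℕ → V) : Prop :=
  ∃ t : V → V → ℕ, PEC R Cl t ∧ ∀ b ∈ O, ∀ w, R.Adj (st b) w → t (st b) w ≠ b

/-! ### special edges and adjusters -/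

/-- Special edges `(su b, sv b)`, `b ∈ od F p C i`, `sv b` in the part `i`, `su b` in the part
`i + 1`; adjusters `(e1 k, e2 k)`, `k < 4 h`, `e1 k` in the part 0, `e2 k` in the part 1 for
`k < 2 h` and in the part 2 otherwise. -/
structure SPD (G : SimpleGraph V) (F : V → Finset ℕ) (p : V → Fin 3) (C : Fin 3 → Finset ℕ)
    (h : ℕ) (su sv e1 e2 : ℕ → V) : Prop where
  vp : ∀ i, ∀ b ∈ od F p C i, p (sv b) = i
  up : ∀ i, ∀ b ∈ od F p C i, p (su b) = i + 1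
  adj : ∀ i, ∀ b ∈ od F p C i, G.Adj (su b) (sv b)
  uF : ∀ i, ∀ b ∈ od F p C i, b ∉ F (su b)
  vinj : ∀ i, Set.InjOn sv (od F p C i : Set ℕ)
  uinj : ∀ i, Set.InjOn su (od F p C i : Set ℕ)
  p1 : ∀ k, k < 4 * h → p (e1 k) = 0
  p2 : ∀ k, k < 2 * h → p (e2 k) = 1
  p3 : ∀ k, 2 * h ≤ k → k < 4 * h → p (e2 k) = 2
  ea : ∀ k, k < 4 * h → G.Adj (e1 k) (e2 k)
  i1 : Set.InjOn e1 (range (4 * h) : Set ℕ)
  i2 : Set.InjOn e2 (range (4 * h) : Set ℕ)
  es : ∀ k, k < 4 * h → ∀ i, ∀ b ∈ od F p C i,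
    ¬ (e1 k = su b ∧ e2 k = sv b) ∧ ¬ (e1 k = sv b ∧ e2 k = su b)

/-- `v w` is a special edge -/
def isS (F : V → Finset ℕ) (p : V → Fin 3) (C : Fin 3 → Finset ℕ) (su sv : ℕ → V) (v w : V) :
    Prop :=
  ∃ i, ∃ b ∈ od F p C i, (su b = v ∧ sv b = w) ∨ (su b = w ∧ sv b = v)

/-- `v w` is an adjuster -/
def isA (h : ℕ) (e1 e2 : ℕ → V) (v w : V) : Prop :=
  ∃ k, k < 4 * h ∧ ((e1 k = v ∧ e2 k = w) ∨ (e1 k = w ∧ e2 k = v))

/-! ### cells and palettes -/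

/-- cells and palettes of the first step -/
structure CP (p : V → Fin 3) (a : V → Bool) (Ce Cn : Fin 3 → Finset ℕ) (Q : Bool → Finset ℕ)
    (s x : ℕ) : Prop where
  cs : ∀ i l, (cell p a i l).card ≤ s ∧ s ≤ (cell p a i l).card + x
  ce : ∀ i, (Ce i).card = s
  cn : ∀ i l, (Cn i).card + (Q l).card = s
  d1 : ∀ i j, i ≠ j → Disjoint (Ce i) (Ce j)
  d2 : ∀ i j, i ≠ j → Disjoint (Cn i) (Cn j)
  d3 : ∀ i j, Disjoint (Ce i) (Cn j)
  d4 : ∀ i l, Disjoint (Ce i) (Q l)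
  d5 : ∀ i l, Disjoint (Cn i) (Q l)
  d6 : Disjoint (Q false) (Q true)

/-- all colours of the first step -/
def ec (Ce Cn : Fin 3 → Finset ℕ) (Q : Bool → Finset ℕ) : Finset ℕ :=
  cc Ce ∪ cc Cn ∪ Q false ∪ Q true

/-- The matchings `N b` before the switchings: `C i` the colours of the last stage of the part
`i`, `Q1` the other colours of the rounds with switchings, `Q2` all other colours. -/
structure PRE (G : SimpleGraph V) (d x h s : ℕ) (F : V → Finset ℕ) (p : V → Fin 3)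
    (C : Fin 3 → Finset ℕ) (Q1 Q2 : Finset ℕ) (su sv e1 e2 : ℕ → V) (N : ℕ → V → V) :
    Prop where
  dC : ∀ i j, i ≠ j → Disjoint (C i) (C j)
  dC1 : ∀ i, Disjoint (C i) Q1
  dC2 : ∀ i, Disjoint (C i) Q2
  d12 : Disjoint Q1 Q2
  tot : cc C ∪ Q1 ∪ Q2 = range (d + 2)
  CF : ∀ v, Disjoint (F v) (C (p v))
  cl : ∀ i, (C i).card + h ≤ 2 * s
  cb : ∀ i, 2 * s ≤ (C i).card + h + 10 ^ 6 * x
  q1 : Q1.card ≤ 2 * h
  q2 : 98 * h ≤ 100 * Q2.card
  q3 : 100 * Q2.card ≤ 102 * h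
  spd : SPD G F p C h su sv e1 e2
  mts : Mts G (cc C ∪ Q1) N
  NF : ∀ b ∈ cc C ∪ Q1, ∀ v, N b v ≠ v → b ∉ F v ∧ p (N b v) ≠ p v
  NC : ∀ i, ∀ b ∈ C i, ∀ v, p v = i → N b v = v
  NS : ∀ b ∈ cc C ∪ Q1, ∀ v, N b v ≠ v → ¬ isS F p C su sv v (N b v) ∧ ¬ isA h e1 e2 v (N b v)
  Nu : ∀ i, ∀ b ∈ od F p C i, N b (su b) = su b
  cand : ∀ b ∈ cc C ∪ Q1, ∀ i j, i ≠ j → b ∉ C i → b ∉ C j → 1000 * s ≤
    1000 * (univ.filter (fun v => p v = i ∧ N b v ≠ v ∧ p (N b v) = j)).card + 2 * d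
  unb : ∀ b ∈ cc C ∪ Q1,
    1000 * (univ.filter (fun v => b ∉ C (p v) ∧ b ∉ F v ∧ N b v = v)).card ≤ d
  unv : ∀ v, ((cc C ∪ Q1).filter (fun b => b ∉ C (p v) ∧ b ∉ F v ∧ N b v = v)).card ≤ 70 * x
  lam : ∀ v, (univ.filter (fun w => G.Adj v w ∧ p w ≠ p v ∧ ¬ isS F p C su sv v w ∧
    ¬ isA h e1 e2 v w ∧ ∀ b ∈ cc C ∪ Q1, N b v ≠ w)).card ≤ 10 ^ 6 * x

/-- The targets: `τ b i` means that one vertex of the part `i` misses the colour `b ∈ Q`. -/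
structure TG (F : V → Finset ℕ) (p : V → Fin 3) (C : Fin 3 → Finset ℕ) (Q : Finset ℕ)
    (τ : ℕ → Fin 3 → Prop) : Prop where
  odd : ∀ b ∈ Q, (Odd (univ.filter (fun i => τ b i)).card ↔ Odd (univ \ us F b).card)
  le : ∀ i, (Q.filter (fun b => τ b i)).card + (wr F (C i)).card ≤ (pt p i).card
  ev : ∀ i, Even ((Q.filter (fun b => τ b i)).card + (wr F (C i)).card + (pt p i).card)

/-- `X b`, `b ∈ Q`, are disjoint sets of vertices without `b` which realise the targets `τ` -/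
structure XS (F : V → Finset ℕ) (p : V → Fin 3) (Q : Finset ℕ) (τ : ℕ → Fin 3 → Prop)
    (X : ℕ → Finset V) : Prop where
  XF : ∀ b ∈ Q, ∀ v ∈ X b, b ∉ F v
  dis : ∀ b ∈ Q, ∀ b' ∈ Q, b ≠ b' → Disjoint (X b) (X b')
  num : ∀ b ∈ Q, ∀ i, ((X b).filter (fun v => p v = i)).card = if τ b i then 1 else 0

/-- what the matchings `M b` do for the colours of the last stages -/
structure CV (F : V → Finset ℕ) (p : V → Fin 3) (C : Fin 3 → Finset ℕ) (M : ℕ → V → V) :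
    Prop where
  cov : ∀ i, ∀ b ∈ C i, ∀ v, p v ≠ i → (M b v = v ↔ b ∈ F v)
  out : ∀ i, ∀ b ∈ C i, ∀ v, p v = i → M b v ≠ v → p (M b v) ≠ i
  one : ∀ i, ∀ b ∈ C i, ∀ v w, p v = i → p w = i → M b v ≠ v → M b w ≠ w → v = w
  sta : ∀ i, ∀ b ∈ C i, ∀ b' ∈ C i, ∀ v, p v = i → M b v ≠ v → M b' v ≠ v → b = b'

/-- after the switchings -/
structure ST1 (G : SimpleGraph V) (h : ℕ) (F : V → Finset ℕ) (p : V → Fin 3)
    (C : Fin 3 → Finset ℕ) (Q1 : Finset ℕ) (X : ℕ → Finset V) (e1 e2 : ℕ → V)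
    (M : ℕ → V → V) : Prop where
  mts : Mts G (cc C ∪ Q1) M
  cv : CV F p C M
  covQ : ∀ b ∈ Q1, ∀ v, M b v = v ↔ b ∈ F v ∨ v ∈ X b
  nA : ∀ b ∈ cc C ∪ Q1, ∀ v, M b v ≠ v → ¬ isA h e1 e2 v (M b v)
  lam : ∀ v, 1000 * (univ.filter (fun w => G.Adj v w ∧ p w ≠ p v ∧ ¬ isA h e1 e2 v w ∧
    ∀ b ∈ cc C ∪ Q1, M b v ≠ w)).card ≤ h
  inn : ∀ v, 1000 * ((cc C ∪ Q1).filter (fun b => M b v ≠ v ∧ p (M b v) = p v)).card ≤ h

/-- the graph of the edges between the parts which are not coloured after the switchings -/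
def lg (G : SimpleGraph V) (h : ℕ) (p : V → Fin 3) (B : Finset ℕ) (e1 e2 : ℕ → V)
    (M : ℕ → V → V) : SimpleGraph V where
  Adj v w := G.Adj v w ∧ p w ≠ p v ∧ ¬ isA h e1 e2 v w ∧ ∀ b ∈ B, M b v ≠ w ∧ M b w ≠ v
  symm := ⟨fun _ _ hh => ⟨hh.1.symm, hh.2.1.symm, fun ⟨k, hk, h2⟩ => hh.2.2.1 ⟨k, hk, h2.symm⟩,
    fun b hb => ⟨(hh.2.2.2 b hb).2, (hh.2.2.2 b hb).1⟩⟩⟩
  loopless := ⟨fun v hh => G.loopless.irrefl v hh.1⟩

/-- the edges between the parts coloured with `Q2` -/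
structure LQ (G : SimpleGraph V) (d h : ℕ) (F : V → Finset ℕ) (p : V → Fin 3)
    (B Q2 : Finset ℕ) (e1 e2 : ℕ → V) (M K : ℕ → V → V) : Prop where
  mts : Mts (lg G h p B e1 e2 M) Q2 K
  KF : ∀ b ∈ Q2, ∀ v, K b v ≠ v → b ∉ F v
  all : ∀ v w, (lg G h p B e1 e2 M).Adj v w → ∃ b ∈ Q2, K b v = w
  sz : ∀ b ∈ Q2, 50 * (univ.filter (fun v => K b v ≠ v)).card ≤ d
  szA : ∀ b ∈ Q2, 5 * (univ.filter (fun v => K b v ≠ v ∧ ∃ k < 4 * h, v = e1 k ∨ v = e2 k)).card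
    ≤ h

/-- after the rounds: only inner edges of the parts are left -/
structure RND (G : SimpleGraph V) (d h : ℕ) (F : V → Finset ℕ) (p : V → Fin 3)
    (C : Fin 3 → Finset ℕ) (X : ℕ → Finset V) (M : ℕ → V → V) : Prop where
  mts : Mts G (range (d + 2)) M
  cv : CV F p C M
  cov : ∀ b ∈ range (d + 2) \ cc C, ∀ v, M b v = v ↔ b ∈ F v ∨ v ∈ X b
  all : ∀ v w, G.Adj v w → p v ≠ p w → ∃ b ∈ range (d + 2), M b v = w

end defs

/-! ## General blocks -/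

/-- SWITCH: the pairs `(v, P b v)` of vertices not covered by `N b` are joined by alternating
paths with three edges (`T b v (P b v)`) or five edges. -/
def Stmt_SWITCH : Prop :=
  ∀ {V : Type u} [Fintype V] (G res : SimpleGraph V) (E : Finset ℕ) (N P : ℕ → V → V)
    (T : ℕ → V → V → Prop) (u r L o K : ℕ), Mts G E N → res ≤ G →
    (∀ b ∈ E, ∀ v, N b v ≠ v → ¬ res.Adj v (N b v)) → (∀ b ∈ E, ∀ v, P b (P b v) = v) →
    (∀ b ∈ E, ∀ v, P b v ≠ v → N b v = v) →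
    (∀ b ∈ E, (univ.filter (fun v => P b v ≠ v)).card ≤ u) →
    (∀ v, (E.filter (fun b => P b v ≠ v)).card ≤ r) → 1 ≤ L →
    2 * ∑ b ∈ E, (univ.filter (fun v => P b v ≠ v)).card ≤ L * o →
    2 * u + 2 * o + 2 * (r + L) + 8 ≤ K →
    (∀ b ∈ E, ∀ v w, P b v ≠ v → v ≠ w → T b v w →
      K ≤ (univ.filter (fun a => N b a ≠ a ∧ res.Adj v a ∧ res.Adj (N b a) w)).card) →
    (∀ b ∈ E, ∀ v, P b v ≠ v → ¬ T b v (P b v) →
      K ≤ (univ.filter (fun c => N b c ≠ c ∧ res.Adj (P b v) c ∧ T b v (N b c))).card) →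
    ∃ M : ℕ → V → V, Mts G E M ∧ (∀ b ∈ E, ∀ v, M b v = v ↔ N b v = v ∧ P b v = v) ∧
      (∀ b ∈ E, ∀ v, M b v ≠ v → M b v ≠ N b v → res.Adj v (M b v)) ∧
      ∀ v, (E.filter (fun b => N b v ≠ v ∧ M b v ≠ N b v)).card ≤ L

/-- COMPR (from PM of NC): rounds inside the set `A` by perfect matchings of `A \ X b`. -/
def Stmt_COMPR : Prop :=
  ∀ {V : Type u} [Fintype V] (G L : SimpleGraph V) (A : Finset V) (E : Finset ℕ) (s : ℕ)
    (X : ℕ → Finset V), (∀ b ∈ E, Even (A \ X b).card) →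
    (∀ v ∈ A, (nn G A v).card + (nb L v).card + E.card ≤ s) →
    (∀ b ∈ E, (A ∩ X b).card + 4 * s ≤ A.card) →
    ∃ M : ℕ → V → V, Mts G E M ∧ (∀ b ∈ E, ∀ v, M b v ≠ v ↔ v ∈ A ∧ v ∉ X b) ∧
      ∀ b ∈ E, ∀ v, M b v ≠ v → ¬ L.Adj v (M b v)

/-- KOEN: bipartite graphs. -/
def Stmt_KOEN : Prop :=
  ∀ {V : Type u} [Fintype V] (G : SimpleGraph V) (sd : V → Bool) (Cl : Finset ℕ),
    (∀ v w, G.Adj v w → sd v ≠ sd w) → (∀ v, (nb G v).card ≤ Cl.card) →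
    ∃ t : V → V → ℕ, PEC G Cl t

/-! ## Dense regular graphs -/

/-- TWIN: two labelled halves. -/
def Stmt_TWIN : Prop :=
  ∀ {V : Type u} [Fintype V] (p : ℕ), Fintype.card V = 2 * p →
    ∃ (sd : V → Bool) (tw : V → V) (l : V → ℕ), Tw p sd tw l

/-- DRN: the matchings `l v + l w = const`, the same on both sides. -/
def Stmt_DRN : Prop :=
  ∀ {V : Type u} [Fintype V] (G : SimpleGraph V) (p n : ℕ) (sd : V → Bool) (tw : V → V)
    (l : V → ℕ) (E : Finset ℕ), Tw p sd tw l → (∀ v, (nn G univ v).card ≤ n) → E.card = p →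
    ∃ N : ℕ → V → V, Mts G E N ∧ (∀ b ∈ E, ∀ v, sd (N b v) = sd v ∧ N b (tw v) = tw (N b v)) ∧
      (∀ v, (E.filter (fun b => N b v = v)).card ≤ 2 * n + 1) ∧
      ∀ v w, G.Adj v w → sd v = sd w → G.Adj (tw v) (tw w) → ∃ b ∈ E, N b v = w

/-- DRA (from TWIN, DRN, SWITCH): perfect matchings of `G` covering almost all inner edges of two
halves. -/
def Stmt_DRA : Prop :=
  ∀ {V : Type u} [Fintype V] (G : SimpleGraph V) (κ p n : ℕ) (Cl : Finset ℕ),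
    Fintype.card V = 2 * p → (∀ v, (nb G v).card = κ) → 2 * p = κ + 1 + n →
    10 ^ 9 * (n + 1) ≤ p → Cl.card = κ →
    ∃ (sd : V → Bool) (E : Finset ℕ) (M : ℕ → V → V), Bal p sd ∧ E ⊆ Cl ∧ E.card ≤ p ∧
      Mts G E M ∧ (∀ b ∈ E, ∀ v, M b v ≠ v) ∧
      (∀ v, 9000 * (univ.filter (fun w => G.Adj v w ∧ sd v = sd w ∧ ∀ b ∈ E, M b v ≠ w)).card ≤
        p) ∧
      ∀ v, 1000 * (E.filter (fun b => sd (M b v) ≠ sd v)).card ≤ p

/-- DRB (from GRS of NC): colouring of the few remaining inner edges, the same number of edges of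
every colour on both sides. -/
def Stmt_DRB : Prop :=
  ∀ {V : Type u} [Fintype V] (Y : SimpleGraph V) (sd : V → Bool) (p l : ℕ) (P0 : Finset ℕ),
    Bal p sd → (∀ v w, Y.Adj v w → sd v = sd w) → (∀ v, (nb Y v).card ≤ l) →
    ∑ v ∈ univ.filter (fun v => sd v = true), (nb Y v).card =
      ∑ v ∈ univ.filter (fun v => sd v = false), (nb Y v).card →
    110 * l + 2 ≤ P0.card → 10 ^ 5 ≤ p →
    ∃ K : ℕ → V → V, Mts Y P0 K ∧ (∀ v w, Y.Adj v w → ∃ b ∈ P0, K b v = w) ∧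
      ∀ b ∈ P0, (univ.filter (fun v => K b v ≠ v ∧ sd v = true)).card =
        (univ.filter (fun v => K b v ≠ v ∧ sd v = false)).card ∧
        50 * (univ.filter (fun v => K b v ≠ v ∧ sd v = true)).card ≤ p

/-- DRC (Hall): the matchings `K b` are completed by edges between the sides. -/
def Stmt_DRC : Prop :=
  ∀ {V : Type u} [Fintype V] (G L : SimpleGraph V) (sd : V → Bool) (p z : ℕ) (P0 : Finset ℕ)
    (K : ℕ → V → V), Bal p sd →
    (∀ v, (univ.filter (fun w => sd w ≠ sd v ∧ ¬ G.Adj v w)).card + (nb L v).card + P0.card ≤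
      z) → Mts G P0 K → (∀ b ∈ P0, ∀ v, sd (K b v) = sd v) →
    (∀ b ∈ P0, (univ.filter (fun v => K b v ≠ v ∧ sd v = true)).card =
      (univ.filter (fun v => K b v ≠ v ∧ sd v = false)).card) →
    (∀ b ∈ P0, (univ.filter (fun v => K b v ≠ v ∧ sd v = true)).card + 2 * z ≤ p) →
    ∃ M : ℕ → V → V, Mts G P0 M ∧ (∀ b ∈ P0, ∀ v, M b v ≠ v) ∧
      (∀ b ∈ P0, ∀ v, K b v ≠ v → M b v = K b v) ∧
      ∀ b ∈ P0, ∀ v, K b v = v → sd (M b v) ≠ sd v ∧ ¬ L.Adj v (M b v)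

/-- DENSE (from DRA, DRB, DRC, KOEN): very dense regular graphs of even order. -/
def Stmt_DENSE : Prop :=
  ∀ {V : Type u} [Fintype V] (G : SimpleGraph V) (κ p : ℕ) (Cl : Finset ℕ),
    Fintype.card V = 2 * p → (∀ v, (nb G v).card = κ) → 10 ^ 9 * (2 * p - κ) ≤ p →
    Cl.card = κ → ∃ t : V → V → ℕ, PEC G Cl t

/-! ## The last stage -/

/-- CLEAN2 (from CORE and STAR): no free colour, but no prescribed colours on `W`. -/
def Stmt_CLEAN2 : Prop :=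
  ∀ {V : Type u} [Fintype V] (R : SimpleGraph V) (Cl : Finset ℕ) (c : V → ℕ) (W : Finset V),
    (∀ v w, v ≠ w → c v = c w → c v ∉ Cl) →
    (∀ v, v ∉ W → (nb R v).card + (if c v ∈ Cl then 1 else 0) + 1 ≤ Cl.card) →
    (∀ v ∈ W, (nb R v).card ≤ Cl.card ∧ c v ∉ Cl) → (∀ v ∈ W, ∀ w ∈ W, ¬ R.Adj v w) →
    ∃ t : V → V → ℕ, PEC R Cl t ∧ ∀ v w, R.Adj v w → t v w ≠ c v

/-- FINAE (from ABSB, COMP, CLEAN): even order, many right colours. -/
def Stmt_FINAE : Prop :=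
  ∀ {V : Type u} [Fintype V] (R : SimpleGraph V) (Cl O : Finset ℕ) (st : ℕ → V) (W : Finset V),
    FD R Cl O st W → Even (Fintype.card V) → O.card + 2 * W.card + 15 ≤ Cl.card →
    Done R Cl O st

/-- FINAO (from ABSB, COMP, CLEAN2): odd order, many right colours. -/
def Stmt_FINAO : Prop :=
  ∀ {V : Type u} [Fintype V] (R : SimpleGraph V) (Cl O : Finset ℕ) (st : ℕ → V) (W : Finset V),
    FD R Cl O st W → Odd (Fintype.card V) → 2 * W.card + 15 ≤ O.card → Done R Cl O st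

/-- FINBE (from COMP, DENSE, STAR): even order, few right colours. -/
def Stmt_FINBE : Prop :=
  ∀ {V : Type u} [Fintype V] (R : SimpleGraph V) (Cl O : Finset ℕ) (st : ℕ → V) (W : Finset V),
    FD R Cl O st W → Even (Fintype.card V) → Cl.card ≤ O.card + 2 * W.card + 15 →
    O.card + W.card ≤ Fintype.card V → Done R Cl O st

/-- FINBO (from COMP, DENSE): odd order, few right colours. -/
def Stmt_FINBO : Prop :=
  ∀ {V : Type u} [Fintype V] (R : SimpleGraph V) (Cl O : Finset ℕ) (st : ℕ → V) (W : Finset V),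
    FD R Cl O st W → Odd (Fintype.card V) → O.card ≤ 2 * W.card + 15 →
    Cl.card + W.card ≤ Fintype.card V + O.card → Done R Cl O st

/-- FINR (from FINAE, FINAO, FINBE, FINBO): the last stage on a subset `A`. -/
def Stmt_FINR : Prop :=
  ∀ {V : Type u} [Fintype V] (R : SimpleGraph V) (A : Finset V) (Cl O : Finset ℕ) (st : ℕ → V)
    (W : Finset V), (∀ v w, R.Adj v w → v ∈ A ∧ w ∈ A) → W ⊆ A → O ⊆ Cl →
    (∀ b ∈ O, st b ∈ A) → Set.InjOn st (O : Set ℕ) →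
    (∀ v ∈ A, (nb R v).card + (if v ∈ O.image st then 1 else 0) + 1 =
      Cl.card + (if v ∈ W then 1 else 0)) →
    10 ^ 10 * (A.card + 2 * W.card + 20) ≤ A.card + 10 ^ 10 * Cl.card →
    (Even A.card → O.card + W.card ≤ A.card) →
    (Odd A.card → Cl.card + W.card ≤ A.card + O.card) → Done R Cl O st

/-! ## The rounds -/

/-- SPEC: special edges and adjusters. -/
def Stmt_SPEC : Prop :=
  ∀ {V : Type u} [Fintype V] (G : SimpleGraph V) (d x y h s : ℕ) (F : V → Finset ℕ)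
    (p : V → Fin 3) (a : V → Bool) (C : Fin 3 → Finset ℕ), LTH G d x y h s F p a C →
    ∃ su sv e1 e2 : ℕ → V, SPD G F p C h su sv e1 e2

/-- GALVC (Galvin): the edges between different parts. -/
def Stmt_GALVC : Prop :=
  ∀ {V : Type u} [Fintype V] (G Rv : SimpleGraph V) (F : V → Finset ℕ) (p : V → Fin 3)
    (a : V → Bool) (Ce Cn : Fin 3 → Finset ℕ) (Q : Bool → Finset ℕ) (s x : ℕ),
    CP p a Ce Cn Q s x → 3 ≤ x → 10 * x ≤ s → (∀ v, (F v).card ≤ x) →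
    (∀ v, (nn G univ v).card ≤ x) → (∀ v, (nb Rv v).card ≤ 3) →
    ∃ N : ℕ → V → V, Mts G (ec Ce Cn Q) N ∧
      (∀ b ∈ ec Ce Cn Q, ∀ v, N b v ≠ v →
        b ∉ F v ∧ ¬ Rv.Adj v (N b v) ∧ p (N b v) ≠ p v) ∧
      (∀ i, ∀ b ∈ Ce i ∪ Cn i, ∀ v, p v = i → N b v = v) ∧
      (∀ l, ∀ b ∈ Q l, ∀ i j, i ≠ j →
        s ≤ (univ.filter (fun v => p v = i ∧ N b v ≠ v ∧ p (N b v) = j)).card +
          (univ.filter (fun v => N b v = v)).card + x) ∧
      (∀ v, ((ec Ce Cn Q).filter (fun b => b ∉ Ce (p v) ∪ Cn (p v) ∧ b ∉ F v ∧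
        N b v = v)).card ≤ 17 * x) ∧
      ∀ v, (univ.filter (fun w => G.Adj v w ∧ p w ≠ p v ∧ ¬ Rv.Adj v w ∧
        ∀ b ∈ ec Ce Cn Q, N b v ≠ w)).card ≤ 17 * x

/-- PREP (from SPEC, GALVC): the bad colours are moved to `Q2`. -/
def Stmt_PREP : Prop :=
  ∀ {V : Type u} [Fintype V] (G : SimpleGraph V) (d x y h s : ℕ) (F : V → Finset ℕ)
    (p : V → Fin 3) (a : V → Bool) (C : Fin 3 → Finset ℕ), LTH G d x y h s F p a C →
    ∃ (C' : Fin 3 → Finset ℕ) (Q1 Q2 : Finset ℕ) (su sv e1 e2 : ℕ → V) (N : ℕ → V → V),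
      PRE G d x h s F p C' Q1 Q2 su sv e1 e2 N

/-- TARGET: arithmetic of the targets. -/
def Stmt_TARGET : Prop :=
  ∀ (Q Wr : Finset ℕ) (cap : Fin 3 → ℕ), Wr ⊆ Q → Q.Nonempty → Wr.card ≤ ∑ i, cap i →
    Even (Wr.card + ∑ i, cap i) →
    ∃ τ : ℕ → Fin 3 → Prop, (∀ b ∈ Q, (Odd (univ.filter (fun i => τ b i)).card ↔ b ∈ Wr)) ∧
      ∀ i, (Q.filter (fun b => τ b i)).card ≤ cap i ∧
        Even ((Q.filter (fun b => τ b i)).card + cap i)

/-- TGT (from TARGET): the targets. -/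
def Stmt_TGT : Prop :=
  ∀ {V : Type u} [Fintype V] (G : SimpleGraph V) (d x y h s : ℕ) (F : V → Finset ℕ)
    (p : V → Fin 3) (a : V → Bool) (C0 C : Fin 3 → Finset ℕ) (Q1 Q2 : Finset ℕ)
    (su sv e1 e2 : ℕ → V) (N : ℕ → V → V), LTH G d x y h s F p a C0 →
    PRE G d x h s F p C Q1 Q2 su sv e1 e2 N → ∃ τ : ℕ → Fin 3 → Prop, TG F p C (Q1 ∪ Q2) τ

/-- XSEL: the vertices which miss a colour of `Q1`; every vertex is at most once the partner of
such a vertex. -/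
def Stmt_XSEL : Prop :=
  ∀ {V : Type u} [Fintype V] (G : SimpleGraph V) (d x y h s : ℕ) (F : V → Finset ℕ)
    (p : V → Fin 3) (a : V → Bool) (C0 C : Fin 3 → Finset ℕ) (Q1 Q2 : Finset ℕ)
    (su sv e1 e2 : ℕ → V) (N : ℕ → V → V) (τ : ℕ → Fin 3 → Prop), LTH G d x y h s F p a C0 →
    PRE G d x h s F p C Q1 Q2 su sv e1 e2 N →
    ∃ X : ℕ → Finset V, XS F p Q1 τ X ∧
      ∀ v, (Q1.filter (fun b => N b v ≠ v ∧ N b v ∈ X b)).card ≤ 1

/-- STR (from SWITCH): the rounds with switchings. -/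
def Stmt_STR : Prop :=
  ∀ {V : Type u} [Fintype V] (G : SimpleGraph V) (d x y h s : ℕ) (F : V → Finset ℕ)
    (p : V → Fin 3) (a : V → Bool) (C0 C : Fin 3 → Finset ℕ) (Q1 Q2 : Finset ℕ)
    (su sv e1 e2 : ℕ → V) (N : ℕ → V → V) (τ : ℕ → Fin 3 → Prop) (X : ℕ → Finset V),
    LTH G d x y h s F p a C0 → PRE G d x h s F p C Q1 Q2 su sv e1 e2 N →
    TG F p C (Q1 ∪ Q2) τ → XS F p Q1 τ X →
    (∀ v, (Q1.filter (fun b => N b v ≠ v ∧ N b v ∈ X b)).card ≤ 1) →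
    ∃ M : ℕ → V → V, ST1 G h F p C Q1 X e1 e2 M

/-- LCOL (from GRS of NC): a sparse graph is coloured with small classes. -/
def Stmt_LCOL : Prop :=
  ∀ {V : Type u} [Fintype V] (Y : SimpleGraph V) (F : V → Finset ℕ) (Q : Finset ℕ)
    (A : Finset V) (d h x : ℕ), (∀ v, 1000 * (nb Y v).card ≤ h) → (∀ v, (F v).card ≤ x) →
    10 ^ 6 * x ≤ h → 1 ≤ x → 10 ^ 6 * h ≤ d → 100 * Fintype.card V ≤ 102 * d →
    A.card ≤ 8 * h → 98 * h ≤ 100 * Q.card →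
    ∃ K : ℕ → V → V, Mts Y Q K ∧ (∀ b ∈ Q, ∀ v, K b v ≠ v → b ∉ F v) ∧
      (∀ v w, Y.Adj v w → ∃ b ∈ Q, K b v = w) ∧
      (∀ b ∈ Q, 50 * (univ.filter (fun v => K b v ≠ v)).card ≤ d) ∧
      ∀ b ∈ Q, 5 * (A.filter (fun v => K b v ≠ v)).card ≤ h

/-- XSEL2: the vertices which miss a colour of `Q2`. -/
def Stmt_XSEL2 : Prop :=
  ∀ {V : Type u} [Fintype V] (G : SimpleGraph V) (d x y h s : ℕ) (F : V → Finset ℕ)
    (p : V → Fin 3) (a : V → Bool) (C0 C : Fin 3 → Finset ℕ) (Q1 Q2 : Finset ℕ)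
    (su sv e1 e2 : ℕ → V) (N M K : ℕ → V → V) (τ : ℕ → Fin 3 → Prop) (X : ℕ → Finset V),
    LTH G d x y h s F p a C0 → PRE G d x h s F p C Q1 Q2 su sv e1 e2 N → XS F p Q1 τ X →
    LQ G d h F p (cc C ∪ Q1) Q2 e1 e2 M K →
    ∃ X' : ℕ → Finset V, XS F p (Q1 ∪ Q2) τ X' ∧ (∀ b ∈ Q1, X' b = X b) ∧
      ∀ b ∈ Q2, ∀ v ∈ X' b, K b v = v

/-- ADJ: assignment of colours to the adjusters of one type. -/
def Stmt_ADJ : Prop :=
  ∀ (A m q : ℕ) (Q : Finset ℕ) (blk : ℕ → ℕ → Prop) (π : ℕ → Prop),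
    (∀ k < A, (Q.filter (fun b => blk k b)).card ≤ m) →
    (∀ b ∈ Q, ((range A).filter (fun k => blk k b)).card ≤ q) → Q.card + q < A →
    16 * m + A < 8 * Q.card → Even (A + (Q.filter (fun b => π b)).card) →
    ∃ f : ℕ → ℕ, (∀ k < A, f k ∈ Q ∧ ¬ blk k (f k)) ∧
      ∀ b ∈ Q, (Odd ((range A).filter (fun k => f k = b)).card ↔ π b) ∧
        ((range A).filter (fun k => f k = b)).card ≤ 17

/-- PARI: the parities of the parts 1 and 2 fit. -/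
def Stmt_PARI : Prop :=
  ∀ {V : Type u} [Fintype V] (G : SimpleGraph V) (d x y h s : ℕ) (F : V → Finset ℕ)
    (p : V → Fin 3) (a : V → Bool) (C0 C : Fin 3 → Finset ℕ) (Q1 Q2 : Finset ℕ)
    (su sv e1 e2 : ℕ → V) (N M K : ℕ → V → V) (τ : ℕ → Fin 3 → Prop) (X : ℕ → Finset V),
    LTH G d x y h s F p a C0 → PRE G d x h s F p C Q1 Q2 su sv e1 e2 N →
    TG F p C (Q1 ∪ Q2) τ → XS F p (Q1 ∪ Q2) τ X → ST1 G h F p C Q1 X e1 e2 M →
    LQ G d h F p (cc C ∪ Q1) Q2 e1 e2 M K → (∀ b ∈ Q2, ∀ v ∈ X b, K b v = v) →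
    ∀ i : Fin 3, i ≠ 0 → Even (∑ b ∈ Q2,
      (univ.filter (fun v => p v = i ∧ b ∉ F v ∧ v ∉ X b ∧ K b v = v)).card)

/-- Q2R (from ADJ, PARI, COMPR): the rounds with the colours of `Q2`. -/
def Stmt_Q2R : Prop :=
  ∀ {V : Type u} [Fintype V] (G : SimpleGraph V) (d x y h s : ℕ) (F : V → Finset ℕ)
    (p : V → Fin 3) (a : V → Bool) (C0 C : Fin 3 → Finset ℕ) (Q1 Q2 : Finset ℕ)
    (su sv e1 e2 : ℕ → V) (N M K : ℕ → V → V) (τ : ℕ → Fin 3 → Prop) (X : ℕ → Finset V),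
    LTH G d x y h s F p a C0 → PRE G d x h s F p C Q1 Q2 su sv e1 e2 N →
    TG F p C (Q1 ∪ Q2) τ → XS F p (Q1 ∪ Q2) τ X → ST1 G h F p C Q1 X e1 e2 M →
    LQ G d h F p (cc C ∪ Q1) Q2 e1 e2 M K → (∀ b ∈ Q2, ∀ v ∈ X b, K b v = v) →
    ∃ M' : ℕ → V → V, RND G d h F p C X M'

/-- LST (from FINR): the last stage for all three parts. -/
def Stmt_LST : Prop :=
  ∀ {V : Type u} [Fintype V] (G : SimpleGraph V) (d x y h s : ℕ) (F : V → Finset ℕ)
    (p : V → Fin 3) (a : V → Bool) (C0 C : Fin 3 → Finset ℕ) (Q1 Q2 : Finset ℕ)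
    (su sv e1 e2 : ℕ → V) (N M : ℕ → V → V) (τ : ℕ → Fin 3 → Prop) (X : ℕ → Finset V),
    LTH G d x y h s F p a C0 → PRE G d x h s F p C Q1 Q2 su sv e1 e2 N →
    TG F p C (Q1 ∪ Q2) τ → XS F p (Q1 ∪ Q2) τ X → RND G d h F p C X M →
    ∃ t : V → V → ℕ, (∀ v w, t v w = t w v) ∧ (∀ v w, G.Adj v w → t v w < d + 2 ∧
      t v w ∉ F v) ∧ ∀ v, Set.InjOn (t v) (nb G v : Set V)

/-- LT (from everything): the theorem. -/
def Stmt_LT : Prop :=
  ∀ {V : Type u} [Fintype V] (G : SimpleGraph V) (d x y h s : ℕ) (F : V → Finset ℕ)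
    (p : V → Fin 3) (a : V → Bool) (C : Fin 3 → Finset ℕ), LTH G d x y h s F p a C →
    ∃ t : V → V → ℕ, (∀ v w, t v w = t w v) ∧ (∀ v w, G.Adj v w → t v w < d + 2 ∧
      t v w ∉ F v) ∧ ∀ v, Set.InjOn (t v) (nb G v : Set V)

end Pool.Agent.Work.MP_db9399_lt
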